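import Mathlib

/-!
Group theoretic description (Riemann existence theorem form) of finite group actions on closed
Riemann surfaces of genus `g`, and the set of genera attaining the Accola-Maclachlan bound.
-/

namespace Pool.MP01ebcc

/-- `ActsOnGenus G g`: the finite group `G` has a generating vector of genus `g`, i.e. there is a
signature `(h; m 1, ..., m r)` with all `m i ≥ 2` and elements `a i, b i` (`i < h`), `c i` (`i < r`)
of `G`, with `c i` of order `m i`, generating `G`, with product of the commutators of `a i, b i`
times the product of the `c i` equal to `1`, and such that the Riemann-Hurwitz equation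
`2 g - 2 = |G| (2 h - 2 + ∑ (1 - 1 / m i))` holds. -/
def ActsOnGenus (G : Type) [Group G] (g : ℕ) : Prop :=
  ∃ (h r : ℕ) (a b : Fin h → G) (c : Fin r → G),
    (∀ i, c i ≠ 1) ∧
    (List.ofFn fun i => a i * b i * (a i)⁻¹ * (b i)⁻¹).prod * (List.ofFn c).prod = 1 ∧
    Subgroup.closure (Set.range a ∪ Set.range b ∪ Set.range c) = ⊤ ∧
    2 * (g : ℚ) - 2
      = (Nat.card G : ℚ) * (2 * (h : ℚ) - 2 + ∑ i, (1 - 1 / (orderOf (c i) : ℚ)))

/-- The set of orders of finite groups acting on some closed Riemann surface of genus `g`. -/
def orders (g : ℕ) : Set ℕ :=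
  {k : ℕ | ∃ (G : Type) (_ : Group G) (_ : Finite G), Nat.card G = k ∧ ActsOnGenus G g}

/-- The set of genera `g ≥ 2` for which the largest order of a finite group acting on a closed
Riemann surface of genus `g` is `8 (g + 1)`. -/
def H : Set ℕ := {g : ℕ | 2 ≤ g ∧ IsGreatest (orders g) (8 * (g + 1))}

end Pool.MP01ebcc
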