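import Pool.Agent.Lib.MP_01ebcc_al.Defs

namespace Pool.MP01ebcc

open Subgroup

/-- The Accola-Maclachlan group of order `8 m`: `(C_{2m} × C_2) ⋊ C_2`. -/
@[ext] structure AM (m : ℕ) where
  a : ZMod (2 * m)
  b : ZMod 2
  t : Bool

namespace AM

variable {m : ℕ}

/-- reduction mod 2 -/
def red : ZMod (2 * m) →+* ZMod 2 := ZMod.castHom (Dvd.intro m rfl) (ZMod 2)

instance : Mul (AM m) where
  mul x y := ⟨x.a + (if x.t then -y.a else y.a), x.b + y.b + (if x.t then red y.a else 0),
    xor x.t y.t⟩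

instance : One (AM m) where
  one := ⟨0, 0, false⟩

instance : Inv (AM m) where
  inv x := ⟨if x.t then x.a else -x.a, x.b + (if x.t then red x.a else 0), x.t⟩

theorem mul_def (x y : AM m) : x * y = ⟨x.a + (if x.t then -y.a else y.a),
    x.b + y.b + (if x.t then red y.a else 0), xor x.t y.t⟩ := rfl

theorem one_def : (1 : AM m) = ⟨0, 0, false⟩ := rfl

theorem inv_def (x : AM m) : x⁻¹ = ⟨if x.t then x.a else -x.a,
    x.b + (if x.t then red x.a else 0), x.t⟩ := rfl

theorem two_cancel (u : ZMod 2) : u + u = 0 := CharTwo.add_self_eq_zero u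

instance : Group (AM m) := Group.ofLeftAxioms
  (by
    rintro ⟨a, b, t⟩ ⟨a', b', t'⟩ ⟨a'', b'', t''⟩
    cases t <;> cases t' <;> simp only [mul_def, AM.mk.injEq] <;>
      refine ⟨?_, ?_, ?_⟩ <;> simp <;> try ring1
    all_goals
      have h := two_cancel (red a'')
      first
      | linear_combination h
      | linear_combination -h)
  (by
    rintro ⟨a, b, t⟩
    simp [mul_def, one_def])
  (by
    rintro ⟨a, b, t⟩
    have h := two_cancel b
    have h' := two_cancel (red a)
    cases t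
    · simp [mul_def, one_def, inv_def, h]
    · simp only [mul_def, one_def, inv_def, AM.mk.injEq]
      refine ⟨?_, ?_, ?_⟩
      · simp
      · simp; linear_combination h + h'
      · simp)

/-- as a type, a product -/
def equivProd : AM m ≃ ZMod (2 * m) × ZMod 2 × Bool where
  toFun x := (x.a, x.b, x.t)
  invFun p := ⟨p.1, p.2.1, p.2.2⟩
  left_inv _ := rfl
  right_inv _ := rfl

theorem card_eq : Nat.card (AM m) = 8 * m := by
  rw [Nat.card_congr equivProd, Nat.card_prod, Nat.card_prod, Nat.card_zmod, Nat.card_zmod,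
    Nat.card_eq_fintype_card, Fintype.card_bool]
  ring

/-- the cyclic subgroup of order `2 m` -/
def rot : Multiplicative (ZMod (2 * m)) →* AM m where
  toFun a := ⟨a.toAdd, 0, false⟩
  map_one' := rfl
  map_mul' x y := by simp [mul_def]

theorem rot_inj : Function.Injective (rot (m := m)) := by
  intro x y h
  have : (rot x).a = (rot y).a := by rw [h]
  exact this

/-- rotation generator -/
def X : AM m := ⟨1, 0, false⟩
/-- reflection -/
def T : AM m := ⟨0, 0, true⟩
/-- element of order 4 -/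
def Y : AM m := ⟨1, 1, true⟩

theorem TYX : (T * Y * X : AM m) = 1 := by
  simp only [T, Y, X, mul_def, one_def, AM.mk.injEq]
  refine ⟨by simp, ?_, by simp⟩
  simp
  decide

theorem Y_sq : (Y * Y : AM m) = ⟨0, 1, false⟩ := by
  simp only [Y, mul_def, AM.mk.injEq]
  refine ⟨by simp, ?_, by simp⟩
  simp
  decide

theorem orderOf_T : orderOf (T : AM m) = 2 := by
  apply orderOf_eq_prime
  · rw [pow_two]; simp [T, mul_def, one_def]
  · simp [T, one_def]

theorem orderOf_Y : orderOf (Y : AM m) = 4 := by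
  have h1 : (Y : AM m) ^ 2 ≠ 1 := by
    rw [pow_two, Y_sq]; simp [one_def]
  have h2 : (Y : AM m) ^ 4 = 1 := by
    rw [show (4 : ℕ) = 2 * 2 by norm_num, pow_mul, pow_two (Y : AM m), Y_sq, pow_two]
    simp only [mul_def, one_def, AM.mk.injEq]
    refine ⟨by simp, ?_, by simp⟩
    simp
    decide
  have := orderOf_eq_prime_pow (p := 2) (n := 1) (x := (Y : AM m)) (by simpa using h1)
    (by simpa using h2)
  simpa using this

theorem orderOf_X : orderOf (X : AM m) = 2 * m := by
  have h1 : (X : AM m) = rot (Multiplicative.ofAdd 1) := rfl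
  rw [h1, orderOf_injective rot rot_inj]
  rw [orderOf_ofAdd_eq_addOrderOf]
  exact ZMod.addOrderOf_one _

theorem gen (hm : 0 < m) : closure {T, Y, (X : AM m)} = ⊤ := by
  rw [eq_top_iff]
  rintro ⟨a, b, t⟩ -
  have hT : (T : AM m) ∈ closure {T, Y, (X : AM m)} := subset_closure (by simp)
  have hY : (Y : AM m) ∈ closure {T, Y, (X : AM m)} := subset_closure (by simp)
  have hX : (X : AM m) ∈ closure {T, Y, (X : AM m)} := subset_closure (by simp)
  have h1 : (⟨a, 0, false⟩ : AM m) ∈ closure {T, Y, (X : AM m)} := by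
    have : NeZero (2 * m) := ⟨by omega⟩
    have h2 : (⟨a, 0, false⟩ : AM m) = X ^ a.val := by
      have h3 : (X : AM m) = rot (Multiplicative.ofAdd 1) := rfl
      rw [h3, ← map_pow, ← ofAdd_nsmul]
      show (⟨a, 0, false⟩ : AM m) = ⟨a.val • 1, 0, false⟩
      simp
    rw [h2]
    exact pow_mem hX _
  have h2 : (⟨0, b, false⟩ : AM m) ∈ closure {T, Y, (X : AM m)} := by
    have hb : b = 0 ∨ b = 1 := by
      revert b; decide
    rcases hb with rfl | rfl
    · exact one_mem _
    · rw [← Y_sq]; exact mul_mem hY hY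
  have h3 : (⟨0, 0, t⟩ : AM m) ∈ closure {T, Y, (X : AM m)} := by
    cases t
    · exact one_mem _
    · exact hT
  have h4 : (⟨a, b, t⟩ : AM m) = ⟨a, 0, false⟩ * ⟨0, b, false⟩ * ⟨0, 0, t⟩ := by
    simp [mul_def]
  rw [h4]
  exact mul_mem (mul_mem h1 h2) h3

end AM

theorem exists_acts (g : ℕ) (hg : 2 ≤ g) : 8 * (g + 1) ∈ orders g := by
  have hcard : Nat.card (AM (g + 1)) = 8 * (g + 1) := AM.card_eq
  have hfin : Finite (AM (g + 1)) := Nat.finite_of_card_ne_zero (by rw [hcard]; omega)
  refine ⟨AM (g + 1), inferInstance, hfin, hcard, 0, 3, Fin.elim0, Fin.elim0,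
    ![AM.T, AM.Y, AM.X], ?_, ?_, ?_, ?_⟩
  · intro i h
    have h1 : orderOf ((![AM.T, AM.Y, AM.X] : Fin 3 → AM (g + 1)) i) = 1 := by
      rw [h]; exact orderOf_one
    fin_cases i
    · have h2 : orderOf (AM.T : AM (g + 1)) = 1 := h1
      rw [AM.orderOf_T] at h2
      omega
    · have h2 : orderOf (AM.Y : AM (g + 1)) = 1 := h1
      rw [AM.orderOf_Y] at h2
      omega
    · have h2 : orderOf (AM.X : AM (g + 1)) = 1 := h1
      rw [AM.orderOf_X] at h2
      omega
  · have := AM.TYX (m := g + 1)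
    simp only [List.ofFn_zero, List.prod_nil, one_mul, List.ofFn_succ, List.prod_cons]
    simpa [mul_assoc] using this
  · have h1 : Set.range (![AM.T, AM.Y, AM.X] : Fin 3 → AM (g + 1)) = {AM.T, AM.Y, AM.X} := by
      ext x
      simp only [Set.mem_range, Set.mem_insert_iff, Set.mem_singleton_iff, Fin.exists_fin_succ]
      simp [eq_comm]
    rw [h1, Set.range_eq_empty]
    simpa using AM.gen (m := g + 1) (by omega)
  · rw [hcard, Fin.sum_univ_three]
    have e0 : orderOf ((![AM.T, AM.Y, AM.X] : Fin 3 → AM (g + 1)) 0) = 2 := AM.orderOf_T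
    have e1 : orderOf ((![AM.T, AM.Y, AM.X] : Fin 3 → AM (g + 1)) 1) = 4 := AM.orderOf_Y
    have e2 : orderOf ((![AM.T, AM.Y, AM.X] : Fin 3 → AM (g + 1)) 2) = 2 * (g + 1) :=
      AM.orderOf_X
    rw [e0, e1, e2]
    have : ((g : ℚ) + 1) ≠ 0 := by positivity
    push_cast
    field_simp
    ring

end Pool.MP01ebcc
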