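import Pool.Agent.Lib.MP_01ebcc_al.UpperMain
import Pool.Agent.Lib.MP_01ebcc_al.Exist

namespace Pool.MP01ebcc

open Filter Asymptotics

theorem mem_H {p : ℕ} (hp : p.Prime) (hbig : 6 * Nat.factorial 24 < p)
    (hmod : Nat.factorial 30 ∣ p + 1) : 2 * p + 1 ∈ H := by
  have hp2 := hp.two_le
  refine ⟨by omega, exists_acts _ (by omega), ?_⟩
  rintro k ⟨G, hG, hfin, hcard, hact⟩
  rw [← hcard]
  have := upper hp hbig hmod hact
  omega

theorem not_summable_H {s : ℝ} (hs : s < 1) :
    ¬ Summable (H.indicator (fun g : ℕ => (g : ℝ) ^ (-s))) := by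
  intro hsum
  have : NeZero (Nat.factorial 30) := ⟨Nat.factorial_ne_zero 30⟩
  have hunit : IsUnit (-1 : ZMod (Nat.factorial 30)) := isUnit_one.neg
  apply ArithmeticFunction.vonMangoldt.not_summable_residueClass_prime_div hunit
  have hinj : Function.Injective (fun n : ℕ => 2 * n + 1) := by
    intro m n h
    simp only at h
    omega
  have hsum2 := hsum.comp_injective hinj
  refine summable_of_isBigO_nat hsum2 ?_
  -- asymptotics
  have hlog : (fun n : ℕ => Real.log ((2 * n + 1 : ℕ) : ℝ)) =O[atTop]
      (fun n : ℕ => ((2 * n + 1 : ℕ) : ℝ) ^ (1 - s)) := by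
    have h1 := (isLittleO_log_rpow_atTop (r := 1 - s) (by linarith)).isBigO
    have h2 : Tendsto (fun n : ℕ => ((2 * n + 1 : ℕ) : ℝ)) atTop atTop := by
      refine tendsto_natCast_atTop_atTop.comp ?_
      refine tendsto_atTop_mono (fun n => ?_) tendsto_id
      simp only [id]
      omega
    exact h1.comp_tendsto h2
  obtain ⟨C, hC⟩ := hlog.bound
  refine IsBigO.of_bound (3 * C) ?_
  filter_upwards [hC, eventually_gt_atTop (6 * Nat.factorial 24)] with n hn hnbig
  have hn0 : 0 < n := by omega
  have hnR : (0 : ℝ) < n := by exact_mod_cast hn0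
  have h2n : (0 : ℝ) < ((2 * n + 1 : ℕ) : ℝ) := by positivity
  have hCnn : 0 ≤ 3 * C := by
    by_contra hneg
    push Not at hneg
    have h3 : 0 < ‖((2 * n + 1 : ℕ) : ℝ) ^ (1 - s)‖ := by
      rw [Real.norm_eq_abs, abs_of_pos (Real.rpow_pos_of_pos h2n _)]
      exact Real.rpow_pos_of_pos h2n _
    have h4 : C * ‖((2 * n + 1 : ℕ) : ℝ) ^ (1 - s)‖ < 0 := mul_neg_of_neg_of_pos (by linarith) h3
    have h5 := norm_nonneg (Real.log ((2 * n + 1 : ℕ) : ℝ))
    linarith
  split_ifs with hprime
  · by_cases hres : (n : ZMod (Nat.factorial 30)) = -1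
    · have hmod : Nat.factorial 30 ∣ n + 1 := by
        rw [← ZMod.natCast_eq_zero_iff]
        push_cast
        rw [hres]; ring
      have hmem := mem_H hprime hnbig hmod
      have h6 : ArithmeticFunction.vonMangoldt.residueClass (-1 : ZMod (Nat.factorial 30)) n
          = Real.log n := by
        rw [ArithmeticFunction.vonMangoldt.residueClass]
        rw [Set.indicator_of_mem (by exact hres)]
        exact ArithmeticFunction.vonMangoldt_apply_prime hprime
      rw [h6, Function.comp_apply, Set.indicator_of_mem hmem]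
      have hlogn : 0 ≤ Real.log n := Real.log_natCast_nonneg n
      rw [Real.norm_eq_abs, Real.norm_eq_abs, abs_of_nonneg (by positivity),
        abs_of_pos (Real.rpow_pos_of_pos h2n _)]
      have h7 : Real.log n ≤ Real.log ((2 * n + 1 : ℕ) : ℝ) :=
        Real.log_le_log hnR (by push_cast; linarith)
      have h8 : Real.log ((2 * n + 1 : ℕ) : ℝ) ≤ C * ((2 * n + 1 : ℕ) : ℝ) ^ (1 - s) := by
        refine (le_abs_self _).trans ?_
        rw [← Real.norm_eq_abs]
        refine hn.trans (le_of_eq ?_)
        rw [Real.norm_eq_abs, abs_of_pos (Real.rpow_pos_of_pos h2n _)]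
      have h9 : (1 : ℝ) / n ≤ 3 / ((2 * n + 1 : ℕ) : ℝ) := by
        rw [div_le_div_iff₀ hnR h2n]
        push_cast
        have : (1 : ℝ) ≤ n := by exact_mod_cast hn0
        linarith
      have h10 : 0 ≤ C * ((2 * n + 1 : ℕ) : ℝ) ^ (1 - s) := by
        have := Real.rpow_pos_of_pos h2n (1 - s)
        have hC0 : 0 ≤ C := by linarith
        positivity
      calc Real.log n / n = Real.log n * (1 / n) := by ring
        _ ≤ (C * ((2 * n + 1 : ℕ) : ℝ) ^ (1 - s)) * (3 / ((2 * n + 1 : ℕ) : ℝ)) := by
            apply mul_le_mul (h7.trans h8) h9 (by positivity) h10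
        _ = 3 * C * (((2 * n + 1 : ℕ) : ℝ) ^ (1 - s) / ((2 * n + 1 : ℕ) : ℝ)) := by ring
        _ = 3 * C * ((2 * n + 1 : ℕ) : ℝ) ^ (-s) := by
            rw [show (-s) = (1 - s) - 1 by ring, Real.rpow_sub_one h2n.ne']
    · have h6 : ArithmeticFunction.vonMangoldt.residueClass (-1 : ZMod (Nat.factorial 30)) n
          = 0 := by
        rw [ArithmeticFunction.vonMangoldt.residueClass]
        exact Set.indicator_of_notMem (by exact hres) _
      rw [h6, zero_div, norm_zero]
      positivity
  · rw [zero_div, norm_zero]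
    positivity

theorem abscissa_eq_one :
    LSeries.abscissaOfAbsConv (H.indicator (fun _ => (1 : ℂ))) = 1 := by
  apply le_antisymm
  · apply LSeries.abscissaOfAbsConv_le_of_le_const
    refine ⟨1, fun n _ => ?_⟩
    by_cases h : n ∈ H
    · rw [Set.indicator_of_mem h]; simp
    · rw [Set.indicator_of_notMem h]; simp
  · by_contra hlt
    push Not at hlt
    obtain ⟨s, hs1, hs2⟩ := EReal.exists_between_coe_real hlt
    have hs : s < 1 := by exact_mod_cast hs2
    apply not_summable_H hs
    have h1 : LSeriesSummable (H.indicator (fun _ => (1 : ℂ))) (s : ℂ) :=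
      LSeriesSummable_of_abscissaOfAbsConv_lt_re (by simpa using hs1)
    have h2 := h1.norm
    refine h2.congr (fun n => ?_)
    rcases Nat.eq_zero_or_pos n with hn | hn
    · subst hn
      have h0 : (0 : ℕ) ∉ H := fun h => absurd h.1 (by norm_num)
      rw [Set.indicator_of_notMem h0]
      simp
    · rw [LSeries.term_of_ne_zero hn.ne']
      by_cases h : n ∈ H
      · rw [Set.indicator_of_mem h, Set.indicator_of_mem h, norm_div, norm_one,
          Complex.norm_natCast_cpow_of_pos hn, Complex.ofReal_re, Real.rpow_neg (by positivity),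
          one_div]
      · rw [Set.indicator_of_notMem h, Set.indicator_of_notMem h]
        simp

end Pool.MP01ebcc
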