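import Mathlib

namespace Pool.MP01ebcc

variable {G : Type*} [Group G]

/-- `x` centralizes `P`. -/
def Cent (P : Subgroup G) (x : G) : Prop := ∀ v ∈ P, x * v * x⁻¹ = v

/-- `x` inverts `P`. -/
def Inv (P : Subgroup G) (x : G) : Prop := ∀ v ∈ P, x * v * x⁻¹ = v⁻¹

theorem cent_or_inv [Finite G] (P : Subgroup G) [P.Normal] {p : ℕ} (hp : p.Prime)
    (hP : Nat.card P = p) {m : ℕ} (hm : Nat.gcd m (p - 1) ∣ 2) {x : G} (hx : x ^ m = 1) :
    Cent P x ∨ Inv P x := by
  have := Fact.mk hp
  have : IsCyclic P := isCyclic_of_prime_card hP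
  let : CommGroup P := IsCyclic.commGroup
  let φ : MulAut P := MulAut.conjNormal x
  have h1 : φ ^ m = 1 := by
    have : φ ^ m = MulAut.conjNormal (x ^ m) := by rw [map_pow]
    rw [this, hx, map_one]
  have hcard : Nat.card (MulAut P) = p - 1 := by
    rw [IsCyclic.card_mulAut, hP, Nat.totient_prime hp]
  have h2 : φ ^ (p - 1) = 1 := by
    rw [← hcard]; exact pow_card_eq_one'
  have h3 : φ ^ 2 = 1 := by
    have : orderOf φ ∣ 2 := (Nat.dvd_gcd (orderOf_dvd_of_pow_eq_one h1)
      (orderOf_dvd_of_pow_eq_one h2)).trans hm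
    exact orderOf_dvd_iff_pow_eq_one.mp this
  have h4 : ∀ v : P, φ (φ v) = v := by
    intro v
    have : (φ ^ 2) v = v := by rw [h3]; rfl
    rwa [pow_two] at this
  have hcomm : ∀ u v : P, u * v = v * u := fun u v => mul_comm u v
  let F : Subgroup P :=
    { carrier := {v | φ v = v}
      one_mem' := map_one φ
      mul_mem' := by
        intro a b ha hb
        simp only [Set.mem_ofPred_eq] at *
        rw [map_mul, ha, hb]
      inv_mem' := by
        intro a ha
        simp only [Set.mem_ofPred_eq] at *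
        rw [map_inv, ha] }
  have : Fact (Nat.card P).Prime := by rw [hP]; exact ⟨hp⟩
  rcases Subgroup.eq_bot_or_eq_top_of_prime_card F with hF | hF
  · right
    intro v hv
    have h5 : φ ⟨v, hv⟩ * ⟨v, hv⟩ ∈ F := by
      show φ (φ ⟨v, hv⟩ * ⟨v, hv⟩) = _
      rw [map_mul, h4, hcomm]
    rw [hF, Subgroup.mem_bot] at h5
    have h6 : φ ⟨v, hv⟩ = (⟨v, hv⟩ : P)⁻¹ := eq_inv_of_mul_eq_one_left h5
    have h7 := congrArg Subtype.val h6
    simpa [φ, MulAut.conjNormal_apply] using h7
  · left
    intro v hv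
    have h5 : (⟨v, hv⟩ : P) ∈ F := by rw [hF]; trivial
    have h7 := congrArg Subtype.val (show φ ⟨v, hv⟩ = ⟨v, hv⟩ from h5)
    simpa [φ, MulAut.conjNormal_apply] using h7

theorem lemmaA [Finite G] (P : Subgroup G) [P.Normal] {p : ℕ} (hp : p.Prime) (hp2 : p ≠ 2)
    (hP : Nat.card P = p) (hcop : Nat.Coprime p P.index)
    (Z : Set G) (hZ : ∀ s ∈ Z, Cent P s ∧ Nat.Coprime p (orderOf s)) (x : G)
    (hx : (Cent P x ∧ Nat.Coprime p (orderOf x)) ∨ Inv P x) :
    Subgroup.closure (insert x Z) ≠ ⊤ := by
  have := Fact.mk hp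
  have : IsCyclic P := isCyclic_of_prime_card hP
  have hcomm : ∀ u ∈ P, ∀ v ∈ P, u * v = v * u := by
    let : CommGroup P := IsCyclic.commGroup
    intro u hu v hv
    have := mul_comm (⟨u, hu⟩ : P) ⟨v, hv⟩
    exact congrArg Subtype.val this
  obtain ⟨K, hK⟩ := Subgroup.exists_right_complement'_of_coprime (N := P) (by rwa [hP])
  -- centralizing elements of order coprime to p lie in K
  have key : ∀ s, Cent P s → Nat.Coprime p (orderOf s) → s ∈ K := by
    intro s hs hord
    have hmem : s ∈ (P ⊔ K : Subgroup G) := by rw [hK.sup_eq_top]; trivial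
    obtain ⟨v, hv, h, hh, rfl⟩ := (Subgroup.mem_sup_of_normal_left).mp hmem
    have hvh : Commute v h := by
      have h1 := hs v hv
      -- (v h) v (v h)⁻¹ = v
      have h2 : v * h * v = v * (v * h) := by
        have := congrArg (· * (v * h)) h1
        simpa [mul_assoc] using this
      have h3 : h * v = v * h := by
        have h4 : v * (h * v) = v * (v * h) := by rw [← mul_assoc]; exact h2
        exact mul_left_cancel h4
      exact h3.symm
    have h5 : v ^ orderOf (v * h) * h ^ orderOf (v * h) = 1 := by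
      rw [← hvh.mul_pow, pow_orderOf_eq_one]
    have h6 : v ^ orderOf (v * h) ∈ K := by
      rw [eq_inv_of_mul_eq_one_left h5]
      exact K.inv_mem (K.pow_mem hh _)
    have h7 : v ^ orderOf (v * h) = 1 := by
      have := hK.disjoint.le_bot (show v ^ orderOf (v * h) ∈ P ⊓ K from ⟨P.pow_mem hv _, h6⟩)
      simpa using this
    have h8 : v ^ p = 1 := by
      have := pow_card_eq_one' (x := (⟨v, hv⟩ : P))
      rw [hP] at this
      exact congrArg Subtype.val this
    have h9 : v = 1 := by
      have h10 : orderOf v ∣ 1 := by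
        rw [← Nat.Coprime.gcd_eq_one hord]
        exact Nat.dvd_gcd (orderOf_dvd_of_pow_eq_one h8) (orderOf_dvd_of_pow_eq_one h7)
      exact orderOf_eq_one_iff.mp (Nat.dvd_one.mp h10)
    rw [h9, one_mul]; exact hh
  have hKne : K ≠ ⊤ := by
    intro hKt
    have : P = ⊥ := by
      have := hK.disjoint
      rw [hKt] at this
      exact disjoint_top.mp this
    rw [this] at hP
    simp at hP
    exact hp.one_lt.ne hP
  rcases hx with ⟨hx1, hx2⟩ | hx
  · intro htop
    apply hKne
    rw [eq_top_iff, ← htop, Subgroup.closure_le]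
    rintro s (rfl | hs)
    · exact key _ hx1 hx2
    · exact key _ (hZ s hs).1 (hZ s hs).2
  · -- x inverts
    have hmem : x ∈ (P ⊔ K : Subgroup G) := by rw [hK.sup_eq_top]; trivial
    obtain ⟨v, hv, h, hh, rfl⟩ := (Subgroup.mem_sup_of_normal_left).mp hmem
    have hhinv : ∀ w ∈ P, h * w * h⁻¹ = w⁻¹ := by
      intro w hw
      have h1 := hx w hw
      have h2 : h * w * h⁻¹ ∈ P := Subgroup.Normal.conj_mem inferInstance w hw h
      have h3 : v * (h * w * h⁻¹) * v⁻¹ = w⁻¹ := by
        rw [← h1]; group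
      rw [hcomm v hv _ h2] at h3
      simpa [mul_assoc] using h3
    obtain ⟨w, hw, hwv⟩ : ∃ w ∈ P, w * w = v := by
      have hvp : v ^ p = 1 := by
        have := pow_card_eq_one' (x := (⟨v, hv⟩ : P))
        rw [hP] at this
        exact congrArg Subtype.val this
      have hodd : p % 2 = 1 := by
        rcases hp.eq_two_or_odd with h | h
        · exact absurd h hp2
        · exact h
      refine ⟨v ^ ((p + 1) / 2), P.pow_mem hv _, ?_⟩
      rw [← pow_add, show (p + 1) / 2 + (p + 1) / 2 = p + 1 by omega, pow_succ, hvp, one_mul]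
    have hconj : v * h = w * h * w⁻¹ := by
      have h1 := hhinv (w⁻¹) (P.inv_mem hw)
      rw [inv_inv] at h1
      have h2 : h * w⁻¹ = w * h := by
        have := congrArg (· * h) h1
        simpa [mul_assoc] using this
      rw [mul_assoc, h2, ← mul_assoc, hwv]
    intro htop
    apply hKne
    -- conjugate
    rw [eq_top_iff]
    intro g _
    have hg : w * g * w⁻¹ ∈ Subgroup.closure (insert (v * h) Z) := by rw [htop]; trivial
    have hle : Subgroup.closure (insert (v * h) Z) ≤ K.map (MulAut.conj w).toMonoidHom := by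
      rw [Subgroup.closure_le]
      rintro s (rfl | hs)
      · refine ⟨h, hh, ?_⟩
        simp [MulAut.conj_apply, hconj]
      · refine ⟨s, key _ (hZ s hs).1 (hZ s hs).2, ?_⟩
        have := (hZ s hs).1 w hw
        simp only [MulEquiv.coe_toMonoidHom, MulAut.conj_apply]
        -- s w s⁻¹ = w → w s w⁻¹ = s
        have h2 : s * w = w * s := by
          have := congrArg (· * s) this
          simpa [mul_assoc] using this
        rw [← h2]; group
    obtain ⟨k, hk, hkg⟩ := hle hg
    simp only [MulEquiv.coe_toMonoidHom, MulAut.conj_apply] at hkg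
    have : k = g := by
      have := mul_right_cancel hkg
      exact mul_left_cancel this
    rw [← this]; exact hk

end Pool.MP01ebcc
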