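import Pool.Agent.Lib.MP_01ebcc_al.Quot

namespace Pool.MP01ebcc

open Subgroup

variable {G : Type*} [Group G] [Finite G]

theorem lemmaC {x y z : G} (hxyz : x * y * z = 1) (hx : x ^ 2 = 1) (hy : y ^ 4 = 1)
    (hgen : closure {x, y} = ⊤) :
    ∃ e : ℕ, e ∣ orderOf z ∧ e ∣ ((zpowers z).index - 1).factorial ∧
      (e = 1 → (zpowers z).index ≤ 2) ∧ (e = 2 → (zpowers z).index ≤ 4) ∧
      (e = 3 → (zpowers z).index ≤ 8) := by
  set N := (zpowers z).normalCore with hN
  have hNz : N ≤ zpowers z := normalCore_le _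
  have hNn : N.Normal := normalCore_normal _
  set j := (zpowers z).index with hj
  have hj0 : 0 < j := Nat.pos_of_ne_zero index_ne_zero_of_finite
  set e := N.relIndex (zpowers z) with he
  have hej : e * j = N.index := relIndex_mul_index hNz
  have hec : e ∣ orderOf z := by
    rw [← Nat.card_zpowers]
    exact relIndex_dvd_card N (zpowers z)
  have hef : e ∣ (j - 1).factorial := by
    have h1 : e * j ∣ (j - 1).factorial * j := by
      rw [hej, mul_comm, Nat.mul_factorial_pred hj0.ne']
      exact normalCore_index_dvd _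
    exact Nat.dvd_of_mul_dvd_mul_right hj0 h1
  have hze : z ^ e ∈ N := by
    exact N.pow_relIndex_mem (mem_zpowers z)
  have hcard : Nat.card (G ⧸ N) = e * j := by rw [hej]; rfl
  let q : G →* G ⧸ N := QuotientGroup.mk' N
  have hqx : q x ^ 2 = 1 := by rw [← map_pow, hx, map_one]
  have hqy : q y ^ 4 = 1 := by rw [← map_pow, hy, map_one]
  have hqxy : (q x * q y) ^ e = 1 := by
    have h1 : q x * q y = (q z)⁻¹ := by
      rw [← map_mul]
      apply eq_inv_of_mul_eq_one_left
      rw [← map_mul, hxyz, map_one]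
    have h2 : q z ^ e = 1 := by
      rw [← map_pow]
      exact (QuotientGroup.eq_one_iff _).mpr hze
    rw [h1, inv_pow, h2, inv_one]
  have hqgen : closure {q x, q y} = ⊤ := by
    have h1 : closure (q '' {x, y}) = (closure {x, y}).map q := (MonoidHom.map_closure q _).symm
    rw [Set.image_pair] at h1
    rw [h1, hgen, ← MonoidHom.range_eq_map, MonoidHom.range_eq_top]
    exact QuotientGroup.mk'_surjective N
  refine ⟨e, hec, hef, ?_, ?_, ?_⟩
  · intro h1
    rw [h1, pow_one] at hqxy
    have := card_le_2 hqx hqxy hqgen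
    rw [hcard, h1] at this
    omega
  · intro h1
    rw [h1] at hqxy
    have := card_le_8 hqx hqy hqxy hqgen
    rw [hcard, h1] at this
    omega
  · intro h1
    rw [h1] at hqxy
    have := card_le_24 hqx hqy hqxy hqgen
    rw [hcard, h1] at this
    omega

end Pool.MP01ebcc
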