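import Mathlib

namespace Pool.MP01ebcc

open Subgroup

section small

variable {Q : Type*} [Group Q]

/-- Coset enumeration principle: if a family `T : Fin a → Q` times powers of `y` is stable under
left multiplication by `x` and `y`, then it covers `Q`. -/
theorem cover {x y : Q} {m : ℕ} (hm : 0 < m) (hx : x ^ 2 = 1) (hy : y ^ m = 1)
    (hgen : closure {x, y} = ⊤) {a : ℕ} (T : Fin a → Q) (h1 : ∃ i, ∃ k : ℕ, T i * y ^ k = 1)
    (hTx : ∀ i, ∃ j, ∃ k : ℕ, x * T i = T j * y ^ k)
    (hTy : ∀ i, ∃ j, ∃ k : ℕ, y * T i = T j * y ^ k) :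
    Nat.card Q ≤ a * m := by
  have hxi : x⁻¹ = x := by
    rw [inv_eq_iff_mul_eq_one, ← pow_two]; exact hx
  have hyi : y⁻¹ = y ^ (m - 1) := by
    rw [inv_eq_iff_mul_eq_one, ← pow_succ', Nat.sub_add_cancel hm]; exact hy
  have hall : ∀ g : Q, ∃ i, ∃ k : ℕ, g = T i * y ^ k := by
    intro g
    have hg : g ∈ closure {x, y} := by rw [hgen]; trivial
    have stepx : ∀ g : Q, (∃ i, ∃ k : ℕ, g = T i * y ^ k) → ∃ i, ∃ k : ℕ, x * g = T i * y ^ k := by
      rintro g ⟨i, k, rfl⟩
      obtain ⟨j, l, h⟩ := hTx i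
      exact ⟨j, l + k, by rw [← mul_assoc, h, mul_assoc, pow_add]⟩
    have stepy : ∀ g : Q, (∃ i, ∃ k : ℕ, g = T i * y ^ k) → ∃ i, ∃ k : ℕ, y * g = T i * y ^ k := by
      rintro g ⟨i, k, rfl⟩
      obtain ⟨j, l, h⟩ := hTy i
      exact ⟨j, l + k, by rw [← mul_assoc, h, mul_assoc, pow_add]⟩
    have stepyn : ∀ n : ℕ, ∀ g : Q, (∃ i, ∃ k : ℕ, g = T i * y ^ k) →
        ∃ i, ∃ k : ℕ, y ^ n * g = T i * y ^ k := by
      intro n
      induction n with
      | zero => intro g hg; simpa using hg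
      | succ n ih =>
        intro g hg
        rw [pow_succ', mul_assoc]
        exact stepy _ (ih g hg)
    induction hg using closure_induction_left with
    | one =>
      obtain ⟨i, k, h⟩ := h1
      exact ⟨i, k, h.symm⟩
    | mul_left s hs g _ ih =>
      rcases hs with rfl | rfl
      · exact stepx _ ih
      · exact stepy _ ih
    | inv_mul_cancel s hs g _ ih =>
      rcases hs with rfl | rfl
      · rw [hxi]; exact stepx _ ih
      · rw [hyi]; exact stepyn _ _ ih
  have hsurj : Function.Surjective (fun q : Fin a × Fin m => T q.1 * y ^ (q.2 : ℕ)) := by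
    intro g
    obtain ⟨i, k, rfl⟩ := hall g
    refine ⟨(i, ⟨k % m, Nat.mod_lt _ hm⟩), ?_⟩
    simp only
    congr 1
    conv_rhs => rw [← Nat.div_add_mod k m, pow_add, pow_mul, hy, one_pow, one_mul]
  have := Nat.card_le_card_of_surjective _ hsurj
  simpa using this

theorem card_le_24 {x y : Q} (hx : x ^ 2 = 1) (hy : y ^ 4 = 1) (hxy : (x * y) ^ 3 = 1)
    (hgen : closure {x, y} = ⊤) : Nat.card Q ≤ 24 := by
  have hx' : x * x = 1 := by rw [← pow_two]; exact hx
  have hxi : x⁻¹ = x := by rw [inv_eq_iff_mul_eq_one]; exact hx'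
  have hyi : y⁻¹ = y ^ 3 := by
    rw [inv_eq_iff_mul_eq_one, ← pow_succ']; exact hy
  have h3 : x * y * (x * y) * (x * y) = 1 := by
    rw [← hxy]; simp only [pow_succ, pow_zero, one_mul]
  -- y x y = x y⁻¹ x
  have e1 : y * x * y = x * y⁻¹ * x := by
    have : x * y * x * (y * x * y) = 1 := by rw [← h3]; group
    have h4 : y * x * y = (x * y * x)⁻¹ := (eq_inv_of_mul_eq_one_right this)
    rw [h4]
    rw [mul_inv_rev, mul_inv_rev, hxi, mul_assoc]
  have e2 : x * y * x = y⁻¹ * x * y⁻¹ := by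
    have : x * y * x * (y * x * y) = 1 := by rw [← h3]; group
    have h4 : x * y * x = (y * x * y)⁻¹ := (eq_inv_of_mul_eq_one_left this)
    rw [h4]
    rw [mul_inv_rev, mul_inv_rev, hxi, mul_assoc]
  have hle := cover (x := x) (y := y) (m := 4) (by norm_num) hx hy hgen
    (T := ![1, x, y * x, y ^ 2 * x, y ^ 3 * x, x * y ^ 2 * x]) ?_ ?_ ?_
  · simpa using hle
  · exact ⟨0, 0, by simp⟩
  · intro i
    fin_cases i
    · exact ⟨1, 0, by simp⟩
    · exact ⟨0, 0, by simp [hx']⟩
    · refine ⟨4, 3, ?_⟩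
      show x * (y * x) = y ^ 3 * x * y ^ 3
      rw [← mul_assoc, e2, hyi]
    · refine ⟨5, 0, ?_⟩
      show x * (y ^ 2 * x) = x * y ^ 2 * x * y ^ 0
      simp [mul_assoc]
    · refine ⟨2, 1, ?_⟩
      show x * (y ^ 3 * x) = y * x * y ^ 1
      rw [pow_one, e1, ← hyi, mul_assoc]
    · refine ⟨3, 0, ?_⟩
      show x * (x * y ^ 2 * x) = y ^ 2 * x * y ^ 0
      rw [← mul_assoc, ← mul_assoc, hx']; simp
  · intro i
    fin_cases i
    · exact ⟨0, 1, by simp⟩
    · exact ⟨2, 0, by simp⟩
    · exact ⟨3, 0, by simp [pow_succ, mul_assoc]⟩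
    · exact ⟨4, 0, by simp [pow_succ, mul_assoc]⟩
    · refine ⟨1, 0, ?_⟩
      show y * (y ^ 3 * x) = x * y ^ 0
      rw [← mul_assoc, ← pow_succ', hy]; simp
    · refine ⟨5, 3, ?_⟩
      show y * (x * y ^ 2 * x) = x * y ^ 2 * x * y ^ 3
      have f1 : y * (x * y ^ 2 * x) = (y * x * y) * (y * x) := by
        simp only [pow_succ, pow_zero, one_mul, mul_assoc]
      have f2 : x * y⁻¹ * x * (y * x) = x * y⁻¹ * (x * y * x) := by group
      rw [f1, e1, f2, e2, hyi]
      have f3 : x * y ^ 3 * (y ^ 3 * x * y ^ 3) = x * (y ^ 4 * y ^ 2) * x * y ^ 3 := by group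
      rw [f3, hy, one_mul]

theorem card_le_8 {x y : Q} (hx : x ^ 2 = 1) (hy : y ^ 4 = 1) (hxy : (x * y) ^ 2 = 1)
    (hgen : closure {x, y} = ⊤) : Nat.card Q ≤ 8 := by
  have hx' : x * x = 1 := by rw [← pow_two]; exact hx
  have hxi : x⁻¹ = x := by rw [inv_eq_iff_mul_eq_one]; exact hx'
  have hyi : y⁻¹ = y ^ 3 := by
    rw [inv_eq_iff_mul_eq_one, ← pow_succ']; exact hy
  have e1 : y * x = x * y ^ 3 := by
    have : x * y * (x * y) = 1 := by rw [← pow_two]; exact hxy
    have h2 : y * x = (x⁻¹) * (y⁻¹) := by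
      have h3 : x * (y * x) * y = 1 := by rw [← this]; group
      have h4 := eq_inv_of_mul_eq_one_left h3
      rw [← h4]; group
    rw [h2, hxi, hyi]
  have hle := cover (x := x) (y := y) (m := 4) (by norm_num) hx hy hgen
    (T := ![1, x]) ?_ ?_ ?_
  · simpa using hle
  · exact ⟨0, 0, by simp⟩
  · intro i
    fin_cases i
    · exact ⟨1, 0, by simp⟩
    · exact ⟨0, 0, by simp [hx']⟩
  · intro i
    fin_cases i
    · exact ⟨0, 1, by simp⟩
    · refine ⟨1, 3, ?_⟩
      show y * x = x * y ^ 3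
      exact e1

theorem card_le_2 {x y : Q} (hx : x ^ 2 = 1) (hxy : x * y = 1)
    (hgen : closure {x, y} = ⊤) : Nat.card Q ≤ 2 := by
  have hx' : x * x = 1 := by rw [← pow_two]; exact hx
  have hxi : x⁻¹ = x := by rw [inv_eq_iff_mul_eq_one]; exact hx'
  have hy : y = x := by rw [← hxi]; exact eq_inv_of_mul_eq_one_right hxy
  subst hy
  have hle := cover (x := y) (y := y) (m := 2) (by norm_num) hx hx hgen
    (T := ![1]) ?_ ?_ ?_
  · simpa using hle
  · exact ⟨0, 0, by simp⟩
  · intro i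
    fin_cases i
    exact ⟨0, 1, by simp⟩
  · intro i
    fin_cases i
    exact ⟨0, 1, by simp⟩

end small

section core

variable {G : Type*} [Group G] [Finite G]

theorem normalCore_index_dvd (K : Subgroup G) : K.normalCore.index ∣ (K.index).factorial := by
  rw [normalCore_eq_ker, index_ker, index_eq_card, ← Nat.card_perm]
  exact card_subgroup_dvd_card (MulAction.toPermHom G (G ⧸ K)).range

/-- In a group generated by `x, y` with `x ^ 2 = y ^ 3 = 1`, every map to a commutative group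
kills `x y` to the 6. -/
theorem lemmaB {x y z : G} (hxyz : x * y * z = 1) (hx : x ^ 2 = 1) (hy : y ^ 3 = 1)
    (hgen : closure {x, y} = ⊤) : orderOf z ∣ 6 * ((zpowers z).index).factorial := by
  set N := (zpowers z).normalCore with hN
  have hNz : N ≤ zpowers z := normalCore_le _
  have hNn : N.Normal := normalCore_normal _
  -- commutative
  have hcyc : IsCyclic N := by
    have : IsCyclic (zpowers z) := inferInstance
    exact isCyclic_of_injective (inclusion hNz) (inclusion_injective hNz)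
  let φ : G →* MulAut N := MulAut.conjNormal
  have hcommAut : ∀ a b : MulAut N, a * b = b * a := by
    intro a b
    obtain ⟨g, hg⟩ := hcyc.exists_generator
    have hab : ∀ c : MulAut N, ∃ k : ℤ, ∀ v, c v = v ^ k := by
      intro c
      obtain ⟨k, hk⟩ := mem_zpowers_iff.mp (hg (c g))
      refine ⟨k, fun v => ?_⟩
      obtain ⟨l, rfl⟩ := mem_zpowers_iff.mp (hg v)
      rw [map_zpow, ← hk, ← zpow_mul, ← zpow_mul, mul_comm]
    obtain ⟨k, hk⟩ := hab a
    obtain ⟨l, hl⟩ := hab b
    ext v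
    rw [MulAut.mul_apply, MulAut.mul_apply, hk, hl, hl, hk, ← zpow_mul, ← zpow_mul, mul_comm]
  have hφz : φ z = 1 := by
    ext v
    obtain ⟨k, hk⟩ := mem_zpowers_iff.mp (hNz v.2)
    have : (φ z v : G) = z * v * z⁻¹ := MulAut.conjNormal_apply z v
    rw [this, ← hk]
    show z * z ^ k * z⁻¹ = _
    rw [MulAut.one_apply, ← hk, ← zpow_one_add, add_comm, zpow_add_one, mul_inv_cancel_right]
  have hφxy : φ x * φ y = 1 := by
    have := congrArg φ hxyz
    rw [map_mul, map_mul, hφz, mul_one, map_one] at this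
    exact this
  have hφx2 : φ x ^ 2 = 1 := by rw [← map_pow, hx, map_one]
  have hφy3 : φ y ^ 3 = 1 := by rw [← map_pow, hy, map_one]
  have hφxi : φ y = φ x := by
    have h1 : φ y = (φ x)⁻¹ := eq_inv_of_mul_eq_one_right hφxy
    have h2 : (φ x)⁻¹ = φ x := by rw [inv_eq_iff_mul_eq_one, ← pow_two]; exact hφx2
    rw [h1, h2]
  have hφx : φ x = 1 := by
    rw [hφxi, pow_succ, hφx2, one_mul] at hφy3
    exact hφy3
  have hker : φ.ker = ⊤ := by
    rw [eq_top_iff, ← hgen, closure_le]
    rintro s (rfl | rfl)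
    · exact hφx
    · show φ s = 1
      rw [hφxi, hφx]
  have hcen : N ≤ center G := by
    intro v hv
    rw [mem_center_iff]
    intro g
    have hg : φ g = 1 := by
      have : g ∈ φ.ker := by rw [hker]; trivial
      exact this
    have h1 : (φ g ⟨v, hv⟩ : G) = g * v * g⁻¹ := MulAut.conjNormal_apply g ⟨v, hv⟩
    rw [hg] at h1
    have h2 : v = g * v * g⁻¹ := h1
    have := congrArg (· * g) h2
    simpa [mul_assoc] using this.symm
  have hidx : (center G).index ∣ ((zpowers z).index).factorial :=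
    (index_dvd_of_le hcen).trans (normalCore_index_dvd _)
  -- transfer
  let T := MonoidHom.transferCenterPow G
  have hTx : T x ^ 2 = 1 := by rw [← map_pow, hx, map_one]
  have hTy : T y ^ 3 = 1 := by rw [← map_pow, hy, map_one]
  have hTz : T z ^ 6 = 1 := by
    have h1 : T x * T y * T z = 1 := by rw [← map_mul, ← map_mul, hxyz, map_one]
    have h2 : (T x * T y * T z) ^ 6 = 1 := by rw [h1, one_pow]
    have hc : ∀ a b : center G, Commute a b := by
      intro a b
      exact Subtype.ext (mem_center_iff.mp b.2 a)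
    rw [(hc _ _).mul_pow, (hc _ _).mul_pow, show (6 : ℕ) = 2 * 3 by norm_num, pow_mul, hTx, one_pow, one_mul] at h2
    rw [show (2 * 3 : ℕ) = 3 * 2 by norm_num, pow_mul (T y), hTy, one_pow, one_mul] at h2
    exact h2
  have hz : z ^ ((center G).index * 6) = 1 := by
    have := congrArg Subtype.val hTz
    rw [pow_mul]
    simpa [T, MonoidHom.transferCenterPow_apply] using this
  have h1 := orderOf_dvd_of_pow_eq_one hz
  rw [mul_comm] at h1
  exact h1.trans (Nat.mul_dvd_mul_left 6 hidx)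

end core

end Pool.MP01ebcc
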