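import Pool.Agent.Lib.MP_01ebcc_al.Frob

namespace Pool.MP01ebcc

open Subgroup

theorem sylow_normal {G : Type*} [Group G] [Finite G] {p q : ℕ} (hp : p.Prime)
    (hcard : Nat.card G = p * q) (hqp : q < p) :
    ∃ P : Subgroup G, P.Normal ∧ Nat.card P = p ∧ Nat.Coprime p P.index := by
  have := Fact.mk hp
  have hq0 : 0 < q := by
    have : 0 < Nat.card G := Nat.card_pos
    rw [hcard] at this
    exact Nat.pos_of_mul_pos_left this
  have hpq : ¬ p ∣ q := fun h => absurd (Nat.le_of_dvd hq0 h) (by omega)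
  obtain ⟨P⟩ := (Sylow.nonempty (p := p) (G := G))
  have hP : Nat.card P = p := by
    rw [P.card_eq_multiplicity, hcard, Nat.factorization_mul hp.ne_zero hq0.ne']
    rw [Finsupp.add_apply, hp.factorization_self, Nat.factorization_eq_zero_of_not_dvd hpq]
    simp
  have hidx : P.index = q := by
    have h1 : Nat.card P * (P : Subgroup G).index = Nat.card G := card_mul_index _
    rw [hP, hcard] at h1
    exact Nat.eq_of_mul_eq_mul_left hp.pos h1
  have h1 : Nat.card (Sylow p G) ∣ q := by rw [← hidx]; exact P.card_dvd_index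
  have h2 := card_sylow_modEq_one p G
  have h3 : Nat.card (Sylow p G) < p := lt_of_le_of_lt (Nat.le_of_dvd hq0 h1) hqp
  have h4 : Nat.card (Sylow p G) = 1 := by
    have h5 : Nat.card (Sylow p G) % p = 1 % p := h2
    rwa [Nat.mod_eq_of_lt h3, Nat.mod_eq_of_lt hp.one_lt] at h5
  have h5 : Subsingleton (Sylow p G) := (Nat.card_eq_one_iff_unique.mp h4).1
  refine ⟨P, P.normal_of_subsingleton, hP, ?_⟩
  have := P.card_coprime_index
  rwa [hP] at this

variable {G : Type*} [Group G]

/-- `x` acts on `P` by raising to the power `s = ± 1`. -/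
def Act (P : Subgroup G) (x : G) (s : ℤˣ) : Prop := ∀ v ∈ P, x * v * x⁻¹ = v ^ (s : ℤ)

theorem Act.cent {P : Subgroup G} {x : G} (h : Act P x 1) : Cent P x := by
  intro v hv
  have := h v hv
  simpa using this

theorem Act.inv {P : Subgroup G} {x : G} (h : Act P x (-1)) : Inv P x := by
  intro v hv
  have := h v hv
  simpa using this

theorem act_one (P : Subgroup G) : Act P 1 1 := by
  intro v hv
  simp

theorem Act.mul {P : Subgroup G} [P.Normal] {x y : G} {s t : ℤˣ} (hx : Act P x s)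
    (hy : Act P y t) : Act P (x * y) (s * t) := by
  intro v hv
  have h1 : x * y * v * (x * y)⁻¹ = x * (y * v * y⁻¹) * x⁻¹ := by group
  rw [h1, hy v hv, hx _ (P.zpow_mem hv _), ← zpow_mul, mul_comm s t]
  simp

theorem Act.unique {P : Subgroup G} {p : ℕ} (hp : p.Prime) (hp2 : p ≠ 2) (hP : Nat.card P = p)
    {x : G} {s t : ℤˣ} (h1 : Act P x s) (h2 : Act P x t) : s = t := by
  have := Fact.mk hp
  obtain ⟨v, hv, hv1⟩ : ∃ v ∈ P, v ≠ 1 := by
    by_contra hcon
    push Not at hcon
    have : P = ⊥ := by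
      rw [eq_bot_iff]; intro v hv; exact hcon v hv
    rw [this] at hP
    simp at hP
    exact hp.one_lt.ne hP
  have hord : orderOf v = p := by
    have h3 : v ^ p = 1 := by
      have := pow_card_eq_one' (x := (⟨v, hv⟩ : P))
      rw [hP] at this
      exact congrArg Subtype.val this
    exact orderOf_eq_prime h3 hv1
  have h3 : v ^ (s : ℤ) = v ^ (t : ℤ) := by rw [← h1 v hv, ← h2 v hv]
  have hne : v ≠ v⁻¹ := by
    intro h
    have h4 : v ^ 2 = 1 := by rw [pow_two]; nth_rewrite 2 [h]; exact mul_inv_cancel v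
    have h5 := orderOf_dvd_of_pow_eq_one h4
    rw [hord] at h5
    exact hp2 ((Nat.prime_dvd_prime_iff_eq hp Nat.prime_two).mp h5)
  rcases Int.units_eq_one_or s with rfl | rfl <;> rcases Int.units_eq_one_or t with rfl | rfl
  · rfl
  · simp at h3; exact absurd h3 hne
  · simp at h3; exact absurd h3.symm hne
  · rfl

theorem exists_act [Finite G] (P : Subgroup G) [P.Normal] {p : ℕ} (hp : p.Prime)
    (hP : Nat.card P = p) {m : ℕ} (hm : Nat.gcd m (p - 1) ∣ 2) {x : G} (hx : x ^ m = 1) :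
    ∃ s : ℤˣ, Act P x s := by
  rcases cent_or_inv P hp hP hm hx with h | h
  · exact ⟨1, fun v hv => by simpa using h v hv⟩
  · exact ⟨-1, fun v hv => by simpa using h v hv⟩

/-- generating triple with product one -/
def Tri (x y z : G) : Prop := x * y * z = 1 ∧ closure {x, y} = ⊤

theorem Tri.rot {x y z : G} (h : Tri x y z) : Tri y z x := by
  obtain ⟨h1, h2⟩ := h
  refine ⟨?_, ?_⟩
  · have : y * z * x = x⁻¹ * (x * y * z) * x := by group
    rw [this, h1]; group
  · rw [eq_top_iff, ← h2, closure_le]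
    have hy : y ∈ closure {y, z} := subset_closure (by simp)
    have hz : z ∈ closure {y, z} := subset_closure (by simp)
    rintro s (rfl | rfl)
    · have : s = (y * z)⁻¹ := by
        apply eq_inv_of_mul_eq_one_left
        rw [← mul_assoc]; exact h1
      rw [this]
      exact inv_mem (mul_mem hy hz)
    · exact hy

theorem Tri.swap {x y z : G} (h : Tri x y z) : Tri y (y⁻¹ * x * y) z := by
  obtain ⟨h1, h2⟩ := h
  refine ⟨?_, ?_⟩
  · rw [← h1]; group
  · rw [eq_top_iff, ← h2, closure_le]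
    have hy : y ∈ closure {y, y⁻¹ * x * y} := subset_closure (by simp)
    have hz : y⁻¹ * x * y ∈ closure {y, y⁻¹ * x * y} := subset_closure (by simp)
    have h3 := mul_mem (mul_mem hy hz) (inv_mem hy)
    have h4 : y * (y⁻¹ * x * y) * y⁻¹ = x := by group
    rw [h4] at h3
    rintro s (rfl | rfl)
    · exact h3
    · exact hy

theorem orderOf_conj' (x y : G) : orderOf (y⁻¹ * x * y) = orderOf x := by
  have := orderOf_injective (MulAut.conj y⁻¹).toMonoidHom (MulAut.conj y⁻¹).injective x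
  simpa [MulAut.conj_apply] using this

/-- Sorting the periods of a generating triple. -/
theorem Tri.sort {x y z : G} (h : Tri x y z) :
    ∃ x' y' z' : G, Tri x' y' z' ∧ orderOf x' ≤ orderOf y' ∧ orderOf y' ≤ orderOf z' ∧
      (1 / (orderOf x' : ℚ) + 1 / (orderOf y' : ℚ) + 1 / (orderOf z' : ℚ)
        = 1 / (orderOf x : ℚ) + 1 / (orderOf y : ℚ) + 1 / (orderOf z : ℚ)) ∧
      ((orderOf x ≠ 1 ∧ orderOf y ≠ 1 ∧ orderOf z ≠ 1) →
        (orderOf x' ≠ 1 ∧ orderOf y' ≠ 1 ∧ orderOf z' ≠ 1)) := by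
  have hxy := h.swap
  have hrot := h.rot
  have hrot2 := h.rot.rot
  rcases le_total (orderOf x) (orderOf y) with h1 | h1 <;>
  rcases le_total (orderOf y) (orderOf z) with h2 | h2 <;>
  rcases le_total (orderOf x) (orderOf z) with h3 | h3
  · exact ⟨x, y, z, h, h1, h2, rfl, id⟩
  · exact ⟨x, y, z, h, h1, h2, rfl, id⟩
  · -- x ≤ z ≤ y
    -- (z, x, y) then swap: (x, x⁻¹ z x, y)
    refine ⟨x, x⁻¹ * z * x, y, h.rot.rot.swap, ?_, ?_, ?_, ?_⟩
    · rw [orderOf_conj']; exact h3
    · rw [orderOf_conj']; exact h2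
    · rw [orderOf_conj']; ring
    · rw [orderOf_conj']; tauto
  · -- z ≤ x ≤ y
    refine ⟨z, x, y, h.rot.rot, h3, h1, by ring, by tauto⟩
  · -- y ≤ x ≤ z
    refine ⟨y, y⁻¹ * x * y, z, h.swap, ?_, ?_, ?_, ?_⟩
    · rw [orderOf_conj']; exact h1
    · rw [orderOf_conj']; exact h3
    · rw [orderOf_conj']; ring
    · rw [orderOf_conj']; tauto
  · -- y ≤ z ≤ x
    exact ⟨y, z, x, h.rot, h2, h3, by ring, by tauto⟩
  · -- y ≤ x, z ≤ y, x ≤ z : all equal, z ≤ y ≤ x
    refine ⟨z, z⁻¹ * y * z, x, h.rot.swap, ?_, ?_, ?_, ?_⟩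
    · rw [orderOf_conj']; exact h2
    · rw [orderOf_conj']; exact h1
    · rw [orderOf_conj']; ring
    · rw [orderOf_conj']; tauto
  · refine ⟨z, z⁻¹ * y * z, x, h.rot.swap, ?_, ?_, ?_, ?_⟩
    · rw [orderOf_conj']; exact h2
    · rw [orderOf_conj']; exact h1
    · rw [orderOf_conj']; ring
    · rw [orderOf_conj']; tauto

end Pool.MP01ebcc
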