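import Pool.Agent.Lib.MP_01ebcc_al.Tri
import Pool.Agent.Lib.MP_01ebcc_al.LemC

namespace Pool.MP01ebcc

open Subgroup

theorem numeric1 {a b c k p : ℕ} (ha : 2 ≤ a) (hab : a ≤ b) (hbc : b ≤ c) (hp : 0 < p)
    (h : 4 * p * (a * b * c) + k * (b * c + a * c + a * b) = k * (a * b * c))
    (hk : 16 * p < k) :
    c ≤ 30 ∨ (a = 2 ∧ b = 3) ∨ (a = 2 ∧ b = 4) := by
  have hb : 0 < b := by omega
  have hc : 0 < c := by omega
  have habc : 0 < a * b * c := by positivity
  have h1 : 3 * (a * b * c) < 4 * (b * c + a * c + a * b) := by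
    have h2 : 16 * p * (a * b * c) < k * (a * b * c) := Nat.mul_lt_mul_of_pos_right hk habc
    have h3 : k * (3 * (a * b * c)) < k * (4 * (b * c + a * c + a * b)) := by nlinarith
    exact Nat.lt_of_mul_lt_mul_left h3
  have ha4 : a < 4 := by
    by_contra hcon
    push Not at hcon
    have h2 : a * c ≤ b * c := Nat.mul_le_mul_right c hab
    have h3 : a * b ≤ b * c := by
      calc a * b ≤ b * b := Nat.mul_le_mul_right b hab
        _ ≤ b * c := Nat.mul_le_mul_left b hbc
    have h4 : 4 * (b * c) ≤ a * (b * c) := Nat.mul_le_mul_right _ hcon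
    have h5 : a * b * c = a * (b * c) := by ring
    rw [h5] at h1
    omega
  by_contra hcon
  push Not at hcon
  obtain ⟨hc30, hn3, hn4⟩ := hcon
  interval_cases a
  · have hb8 : b < 8 := by
      by_contra hb8
      push Not at hb8
      have : 8 * c ≤ b * c := Nat.mul_le_mul_right c hb8
      have h5 : 2 * b * c = 2 * (b * c) := by ring
      rw [h5] at h1
      omega
    have hk0 : 0 < k := by omega
    interval_cases b
    · have h6 : k * (2 * 2 * c) < k * (2 * c + 2 * c + 2 * 2) := by
        apply Nat.mul_lt_mul_of_pos_left _ hk0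
        omega
      omega
    · exact hn3 rfl rfl
    · exact hn4 rfl rfl
    · omega
    · omega
    · omega
  · have hb5 : b < 5 := by
      by_contra hb5
      push Not at hb5
      have : 5 * c ≤ b * c := Nat.mul_le_mul_right c hb5
      have h5 : 3 * b * c = 3 * (b * c) := by ring
      rw [h5] at h1
      omega
    interval_cases b
    · omega
    · omega

theorem gcd_dvd_two {p m : ℕ} (hmod : Nat.factorial 30 ∣ p + 1) (hm0 : 0 < m) (hm : m ≤ 30) :
    Nat.gcd m (p - 1) ∣ 2 := by
  have h1 : m ∣ p + 1 := (Nat.dvd_factorial hm0 hm).trans hmod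
  have h2 : Nat.gcd m (p - 1) ∣ p + 1 := (Nat.gcd_dvd_left _ _).trans h1
  have h3 : Nat.gcd m (p - 1) ∣ p - 1 := Nat.gcd_dvd_right _ _
  rcases Nat.eq_zero_or_pos p with h | h
  · subst h
    have : Nat.factorial 30 ≤ 1 := Nat.le_of_dvd (by norm_num) hmod
    norm_num [Nat.factorial] at this
  · have h4 := Nat.dvd_sub h2 h3
    rwa [show p + 1 - (p - 1) = 2 by omega] at h4

theorem triple_bound {G : Type*} [Group G] [Finite G] {p : ℕ} (hp : p.Prime)
    (hbig : 6 * Nat.factorial 24 < p) (hmod : Nat.factorial 30 ∣ p + 1) {x y z : G}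
    (h : Tri x y z) (hx1 : orderOf x ≠ 1) (hxy : orderOf x ≤ orderOf y)
    (hyz : orderOf y ≤ orderOf z)
    (heq : 4 * (p : ℚ) = (Nat.card G : ℚ) *
      (1 - (1 / (orderOf x : ℚ) + 1 / (orderOf y : ℚ) + 1 / (orderOf z : ℚ)))) :
    Nat.card G ≤ 16 * (p + 1) := by
  by_contra hcon
  push Not at hcon
  have hbig' : 108000 < p := lt_of_le_of_lt (by norm_num [Nat.factorial]) hbig
  set a := orderOf x with ha
  set b := orderOf y with hb
  set c := orderOf z with hc
  set k := Nat.card G with hk
  have ha0 : 0 < a := orderOf_pos x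
  have hb0 : 0 < b := orderOf_pos y
  have hc0 : 0 < c := orderOf_pos z
  have heqN : 4 * p * (a * b * c) + k * (b * c + a * c + a * b) = k * (a * b * c) := by
    have : (4 * p * (a * b * c) + k * (b * c + a * c + a * b) : ℚ) = k * (a * b * c) := by
      rw [heq]
      have ha0' : (a : ℚ) ≠ 0 := by positivity
      have hb0' : (b : ℚ) ≠ 0 := by positivity
      have hc0' : (c : ℚ) ≠ 0 := by positivity
      field_simp
      ring
    exact_mod_cast this
  have hnum := numeric1 (by omega) hxy hyz hp.pos heqN (by omega)
  have hjc : c * (zpowers z).index = k := by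
    rw [hc, hk, ← Nat.card_zpowers]
    exact card_mul_index _
  set j := (zpowers z).index with hj
  by_cases hc30 : c ≤ 30
  · -- small periods
    have hlt : b * c + a * c + a * b < a * b * c := by
      by_contra hcon2
      push Not at hcon2
      have h1 : k * (a * b * c) ≤ k * (b * c + a * c + a * b) := Nat.mul_le_mul_left k hcon2
      have h2 : 0 < 4 * p * (a * b * c) := by
        have := hp.pos
        positivity
      omega
    obtain ⟨D, hD⟩ := Nat.exists_eq_add_of_lt hlt
    set D' := D + 1 with hD'
    have hDeq : a * b * c = (b * c + a * c + a * b) + D' := by rw [hD, hD']; ring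
    have hkD : k * D' = 4 * p * (a * b * c) := by
      have h1 : k * (a * b * c) = k * (b * c + a * c + a * b) + k * D' := by
        conv_lhs => rw [hDeq]
        rw [mul_add]
      omega
    have habc : a * b * c ≤ 27000 := by
      have h1 : a ≤ 30 := by omega
      have h2 : b ≤ 30 := by omega
      calc a * b * c ≤ 30 * 30 * 30 := Nat.mul_le_mul (Nat.mul_le_mul h1 h2) hc30
        _ = 27000 := by norm_num
    have hpk : p ∣ k := by
      have h1 : p ∣ k * D' := by
        rw [hkD]
        exact Dvd.intro_left _ (by ring : 4 * (a * b * c) * p = 4 * p * (a * b * c))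
      rcases hp.dvd_mul.mp h1 with h2 | h2
      · exact h2
      · have := Nat.le_of_dvd (by omega) h2
        omega
    obtain ⟨q, hq⟩ := hpk
    have hqD : q * D' = 4 * (a * b * c) := by
      have h1 : p * (q * D') = p * (4 * (a * b * c)) := by
        rw [← mul_assoc, ← hq, hkD]; ring
      exact Nat.eq_of_mul_eq_mul_left hp.pos h1
    have hqp : q < p := by
      have h1 : q * 1 ≤ q * D' := Nat.mul_le_mul_left q (by omega)
      omega
    obtain ⟨P, hPn, hPc, hPi⟩ := sylow_normal hp hq hqp
    have hp2 : p ≠ 2 := by omega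
    have hact : ∀ w : G, orderOf w ≤ 30 → ∃ s : ℤˣ, Act P w s := by
      intro w hw
      exact exists_act P hp hPc (gcd_dvd_two hmod (orderOf_pos w) hw) (pow_orderOf_eq_one w)
    have hcop : ∀ w : G, orderOf w ≤ 30 → Nat.Coprime p (orderOf w) := by
      intro w hw
      rw [Nat.Prime.coprime_iff_not_dvd hp]
      intro hdvd
      have := Nat.le_of_dvd (orderOf_pos w) hdvd
      omega
    -- two-generator contradiction
    have key : ∀ u v : G, closure {u, v} = ⊤ → orderOf u ≤ 30 → orderOf v ≤ 30 →
        ¬ Act P u 1 := by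
      intro u v huv hu hv hact1
      obtain ⟨s, hs⟩ := hact v hv
      apply lemmaA P hp hp2 hPc hPi {u} (by
        intro w hw
        rw [Set.mem_singleton_iff] at hw
        rw [hw]
        exact ⟨hact1.cent, hcop u hu⟩) v _ (by rw [Set.pair_comm]; exact huv)
      rcases Int.units_eq_one_or s with rfl | rfl
      · left; exact ⟨hs.cent, hcop v hv⟩
      · right; exact hs.inv
    obtain ⟨s1, hs1⟩ := hact x (by omega)
    obtain ⟨s2, hs2⟩ := hact y (by omega)
    obtain ⟨s3, hs3⟩ := hact z (by omega)
    have hprod : s1 * s2 * s3 = 1 := by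
      have h1 := (hs1.mul hs2).mul hs3
      rw [h.1] at h1
      exact Act.unique hp hp2 hPc h1 (act_one P)
    rcases Int.units_eq_one_or s1 with rfl | rfl
    · exact key x y h.2 (by omega) (by omega) hs1
    · rcases Int.units_eq_one_or s2 with rfl | rfl
      · exact key y x (by rw [Set.pair_comm]; exact h.2) (by omega) (by omega) hs2
      · have : s3 = 1 := by simpa using hprod
        rw [this] at hs3
        exact key z x (h.rot.rot.2) (by omega) (by omega) hs3
  · rcases hnum with h30 | ⟨h2, h3⟩ | ⟨h2, h4⟩
    · exact hc30 h30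
    · -- (2,3,c)
      have hjc2 : j * (c - 6) = 24 * p := by
        rw [h2, h3, ← hjc] at heqN
        have h5 : c * (24 * p + 6 * j) = c * (j * c) := by nlinarith
        have h6 : 24 * p + 6 * j = j * c := Nat.eq_of_mul_eq_mul_left hc0 h5
        have h7 : j * (c - 6) + 6 * j = j * c := by
          have : j * (c - 6) + j * 6 = j * (c - 6 + 6) := by rw [mul_add]
          rw [Nat.sub_add_cancel (by omega)] at this
          rw [← this]; ring
        omega
      have hpj : ¬ p ∣ j := by
        rintro ⟨j', hj'⟩
        rw [hj'] at hjc2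
        have h8 : p * (j' * (c - 6)) = p * 24 := by rw [← mul_assoc, hjc2]; ring
        have h9 := Nat.eq_of_mul_eq_mul_left hp.pos h8
        have hj'0 : 0 < j' := by
          rcases Nat.eq_zero_or_pos j' with h10 | h10
          · rw [h10] at h9; omega
          · exact h10
        have h10 : 1 * (c - 6) ≤ j' * (c - 6) := Nat.mul_le_mul_right _ hj'0
        omega
      have hj24 : j ∣ 24 := by
        have h8 : j ∣ 24 * p := Dvd.intro _ hjc2
        have h9 : Nat.Coprime j p := ((Nat.Prime.coprime_iff_not_dvd hp).mpr hpj).symm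
        exact h9.dvd_of_dvd_mul_right h8
      have hpc : p ∣ c - 6 := by
        have h8 : p ∣ j * (c - 6) := by rw [hjc2]; exact Dvd.intro_left _ rfl
        exact (hp.dvd_mul.mp h8).resolve_left hpj
      have hcp : p ≤ c - 6 := Nat.le_of_dvd (by omega) hpc
      have hB := lemmaB h.1 (by rw [← h2]; exact pow_orderOf_eq_one x)
        (by rw [← h3]; exact pow_orderOf_eq_one y) h.2
      have hB2 : c ∣ 6 * Nat.factorial 24 :=
        hB.trans (Nat.mul_dvd_mul_left 6 (Nat.factorial_dvd_factorial
          (Nat.le_of_dvd (by norm_num) hj24)))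
      have hB3 := Nat.le_of_dvd (by positivity) hB2
      omega
    · -- (2,4,c)
      have hjc2 : j * (c - 4) = 16 * p := by
        rw [h2, h4, ← hjc] at heqN
        have h5 : c * (32 * p + 8 * j) = c * (2 * (j * c)) := by nlinarith
        have h6 : 32 * p + 8 * j = 2 * (j * c) := Nat.eq_of_mul_eq_mul_left hc0 h5
        have h7 : j * (c - 4) + 4 * j = j * c := by
          have : j * (c - 4) + j * 4 = j * (c - 4 + 4) := by rw [mul_add]
          rw [Nat.sub_add_cancel (by omega)] at this
          rw [← this]; ring
        omega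
      have hpj : ¬ p ∣ j := by
        rintro ⟨j', hj'⟩
        rw [hj'] at hjc2
        have h8 : p * (j' * (c - 4)) = p * 16 := by rw [← mul_assoc, hjc2]; ring
        have h9 := Nat.eq_of_mul_eq_mul_left hp.pos h8
        have hj'0 : 0 < j' := by
          rcases Nat.eq_zero_or_pos j' with h10 | h10
          · rw [h10] at h9; omega
          · exact h10
        have h10 : 1 * (c - 4) ≤ j' * (c - 4) := Nat.mul_le_mul_right _ hj'0
        omega
      have hj16 : j ∣ 16 := by
        have h8 : j ∣ 16 * p := Dvd.intro _ hjc2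
        have h9 : Nat.Coprime j p := ((Nat.Prime.coprime_iff_not_dvd hp).mpr hpj).symm
        exact h9.dvd_of_dvd_mul_right h8
      have hkj : k = 4 * j + 16 * p := by
        rw [← hjc, ← hjc2]
        have : c = (c - 4) + 4 := by omega
        nth_rewrite 1 [this]
        ring
      have hj4 : 4 < j := by omega
      have hjle : j ≤ 16 := Nat.le_of_dvd (by norm_num) hj16
      obtain ⟨e, he1, he2, he3, he4, he5⟩ := lemmaC h.1
        (by rw [← h2]; exact pow_orderOf_eq_one x)
        (by rw [← h4]; exact pow_orderOf_eq_one y) h.2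
      rw [← hj] at he2 he3 he4 he5
      have hep : e ∣ p + 1 := by
        refine he2.trans (Dvd.dvd.trans ?_ hmod)
        exact Nat.factorial_dvd_factorial (by omega)
      have hj816 : j = 8 ∨ j = 16 := by
        interval_cases j <;> omega
      rcases hj816 with hj8 | hj16'
      · have hc2 : c = 2 * p + 4 := by rw [hj8] at hjc2; omega
        have he : e ∣ 2 := by
          have h5 : e ∣ c := he1
          rw [hc2] at h5
          have h6 : e ∣ 2 * (p + 1) := hep.mul_left 2
          have h7 := Nat.dvd_sub h5 h6
          rwa [show 2 * p + 4 - 2 * (p + 1) = 2 by omega] at h7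
        rcases (Nat.dvd_prime Nat.prime_two).mp he with h1 | h1
        · have := he3 h1; omega
        · have := he4 h1; omega
      · have hc2 : c = p + 4 := by rw [hj16'] at hjc2; omega
        have he : e ∣ 3 := by
          have h5 : e ∣ c := he1
          rw [hc2] at h5
          have h7 := Nat.dvd_sub h5 hep
          rwa [show p + 4 - (p + 1) = 3 by omega] at h7
        rcases (Nat.dvd_prime Nat.prime_three).mp he with h1 | h1
        · have := he3 h1; omega
        · have := he5 h1; omega

end Pool.MP01ebcc
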