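import Pool.Agent.Lib.MP_01ebcc_al.Upper
import Pool.Agent.Lib.MP_01ebcc_al.Defs

namespace Pool.MP01ebcc

open Subgroup

theorem sign_pattern : ∀ s : Fin 4 → ℤˣ, s 0 * s 1 * s 2 * s 3 = 1 → (∃ i, s i = 1) →
    ∃ i₁ i₂ : Fin 4, i₁ ≠ i₂ ∧ ∀ j, j ≠ i₁ → j ≠ i₂ → s j = 1 := by
  decide

theorem quad_bound {G : Type*} [Group G] [Finite G] {p : ℕ} (hp : p.Prime)
    (hbig : 6 * Nat.factorial 24 < p) (hmod : Nat.factorial 30 ∣ p + 1) {c : Fin 4 → G}
    (hprod : c 0 * c 1 * c 2 * c 3 = 1) (hgen : closure (Set.range c) = ⊤)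
    (hc1 : ∀ i, c i ≠ 1)
    (heq : 4 * (p : ℚ) = (Nat.card G : ℚ) *
      (-2 + ((1 - 1 / (orderOf (c 0) : ℚ)) + (1 - 1 / (orderOf (c 1) : ℚ)) +
        (1 - 1 / (orderOf (c 2) : ℚ)) + (1 - 1 / (orderOf (c 3) : ℚ))))) :
    Nat.card G ≤ 16 * (p + 1) := by
  by_contra hcon
  push Not at hcon
  have hbig' : 108000 < p := lt_of_le_of_lt (by norm_num [Nat.factorial]) hbig
  have hm2 : ∀ i, 2 ≤ orderOf (c i) := by
    intro i
    have h0 := orderOf_pos (c i)
    have h1 : orderOf (c i) ≠ 1 := fun h => hc1 i (orderOf_eq_one_iff.mp h)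
    omega
  have hinv : ∀ i, 1 / (orderOf (c i) : ℚ) ≤ 1 / 2 := by
    intro i
    apply one_div_le_one_div_of_le (by norm_num)
    exact_mod_cast hm2 i
  have hkQ : (16 * (p + 1) : ℚ) < Nat.card G := by exact_mod_cast hcon
  have hpQ : (0 : ℚ) < p := by exact_mod_cast hp.pos
  have hsum : 7 / 4 < 1 / (orderOf (c 0) : ℚ) + 1 / (orderOf (c 1) : ℚ) +
        1 / (orderOf (c 2) : ℚ) + 1 / (orderOf (c 3) : ℚ) := by
    by_contra h
    push Not at h
    have h1 : (1 : ℚ) / 4 ≤ (-2 + ((1 - 1 / (orderOf (c 0) : ℚ)) + (1 - 1 / (orderOf (c 1) : ℚ)) +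
        (1 - 1 / (orderOf (c 2) : ℚ)) + (1 - 1 / (orderOf (c 3) : ℚ)))) := by linarith
    have h2 : (Nat.card G : ℚ) * (1 / 4) ≤ 4 * p := by
      rw [heq]
      exact mul_le_mul_of_nonneg_left h1 (by positivity)
    linarith
  have hm3 : ∀ i, orderOf (c i) ≤ 3 := by
    intro i
    by_contra h
    push Not at h
    have h1 : 1 / (orderOf (c i) : ℚ) ≤ 1 / 4 := by
      apply one_div_le_one_div_of_le (by norm_num)
      exact_mod_cast h
    have h0 := hinv 0
    have h1' := hinv 1
    have h2 := hinv 2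
    have h3 := hinv 3
    fin_cases i
    · simp only [Fin.zero_eta] at h1; linarith
    · simp only [Fin.mk_one] at h1; linarith
    · simp only [Fin.reduceFinMk] at h1; linarith
    · simp only [Fin.reduceFinMk] at h1; linarith
  obtain ⟨hk24, i₀, hi₀⟩ : Nat.card G = p * 24 ∧ ∃ i, orderOf (c i) = 3 := by
    have e0 : orderOf (c 0) = 2 ∨ orderOf (c 0) = 3 := by have := hm2 0; have := hm3 0; omega
    have e1 : orderOf (c 1) = 2 ∨ orderOf (c 1) = 3 := by have := hm2 1; have := hm3 1; omega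
    have e2 : orderOf (c 2) = 2 ∨ orderOf (c 2) = 3 := by have := hm2 2; have := hm3 2; omega
    have e3 : orderOf (c 3) = 2 ∨ orderOf (c 3) = 3 := by have := hm2 3; have := hm3 3; omega
    rcases e0 with e0 | e0 <;> rcases e1 with e1 | e1 <;> rcases e2 with e2 | e2 <;>
      rcases e3 with e3 | e3 <;> rw [e0, e1, e2, e3] at hsum heq <;>
      first
      | (exfalso; norm_num at hsum; done)
      | skip
    · norm_num at heq
      exact absurd heq hp.ne_zero
    · norm_num at heq
      exact ⟨by have : (Nat.card G : ℚ) = p * 24 := by linarith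
                exact_mod_cast this, 3, e3⟩
    · norm_num at heq
      exact ⟨by have : (Nat.card G : ℚ) = p * 24 := by linarith
                exact_mod_cast this, 2, e2⟩
    · norm_num at heq
      exact ⟨by have : (Nat.card G : ℚ) = p * 24 := by linarith
                exact_mod_cast this, 1, e1⟩
    · norm_num at heq
      exact ⟨by have : (Nat.card G : ℚ) = p * 24 := by linarith
                exact_mod_cast this, 0, e0⟩
  obtain ⟨P, hPn, hPc, hPi⟩ := sylow_normal hp hk24 (by omega)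
  have hp2 : p ≠ 2 := by omega
  have hact : ∀ i, ∃ s : ℤˣ, Act P (c i) s := by
    intro i
    exact exists_act P hp hPc (gcd_dvd_two hmod (orderOf_pos _) (by have := hm3 i; omega))
      (pow_orderOf_eq_one _)
  choose s hs using hact
  have hs0 : s i₀ = 1 := by
    have h1 := ((hs i₀).mul (hs i₀)).mul (hs i₀)
    have h2 : c i₀ * c i₀ * c i₀ = 1 := by
      have := pow_orderOf_eq_one (c i₀)
      rw [hi₀] at this
      rw [← this]
      simp only [pow_succ, pow_zero, one_mul]
    rw [h2] at h1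
    have h3 := Act.unique hp hp2 hPc h1 (act_one P)
    rcases Int.units_eq_one_or (s i₀) with h4 | h4
    · exact h4
    · rw [h4] at h3; simp at h3
  have hsprod : s 0 * s 1 * s 2 * s 3 = 1 := by
    have h1 := (((hs 0).mul (hs 1)).mul (hs 2)).mul (hs 3)
    rw [hprod] at h1
    exact Act.unique hp hp2 hPc h1 (act_one P)
  obtain ⟨i₁, i₂, hne, hrest⟩ := sign_pattern s hsprod ⟨i₀, hs0⟩
  have hcop : ∀ i, Nat.Coprime p (orderOf (c i)) := by
    intro i
    rw [Nat.Prime.coprime_iff_not_dvd hp]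
    intro hdvd
    have := Nat.le_of_dvd (orderOf_pos _) hdvd
    have := hm3 i
    omega
  -- each element is in the closure of the others
  have hothers : ∀ i, c i ∈ closure (c '' {i}ᶜ) := by
    intro i
    have hmem : ∀ j, j ≠ i → c j ∈ closure (c '' {i}ᶜ) := by
      intro j hj
      exact subset_closure ⟨j, by simpa using hj, rfl⟩
    fin_cases i
    · have h1 : c 0 = (c 1 * c 2 * c 3)⁻¹ := by
        apply eq_inv_of_mul_eq_one_left
        rw [← hprod]; group
      have h2 : (c 1 * c 2 * c 3)⁻¹ ∈ closure (c '' {(0 : Fin 4)}ᶜ) :=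
        inv_mem (mul_mem (mul_mem (hmem 1 (by decide)) (hmem 2 (by decide)))
          (hmem 3 (by decide)))
      simp only [Fin.zero_eta]
      rw [h1]; exact h2
    · have h1 : c 1 = (c 0)⁻¹ * (c 2 * c 3)⁻¹ := by
        have : c 1 = (c 0)⁻¹ * (c 0 * c 1 * c 2 * c 3) * (c 2 * c 3)⁻¹ := by group
        rw [hprod] at this
        rw [this]; group
      have h2 : (c 0)⁻¹ * (c 2 * c 3)⁻¹ ∈ closure (c '' {(1 : Fin 4)}ᶜ) :=
        mul_mem (inv_mem (hmem 0 (by decide))) (inv_mem (mul_mem (hmem 2 (by decide))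
          (hmem 3 (by decide))))
      simp only [Fin.mk_one]
      rw [h1]; exact h2
    · have h1 : c 2 = (c 0 * c 1)⁻¹ * (c 3)⁻¹ := by
        have : c 2 = (c 0 * c 1)⁻¹ * (c 0 * c 1 * c 2 * c 3) * (c 3)⁻¹ := by group
        rw [hprod] at this
        rw [this]; group
      have h2 : (c 0 * c 1)⁻¹ * (c 3)⁻¹ ∈ closure (c '' {(2 : Fin 4)}ᶜ) :=
        mul_mem (inv_mem (mul_mem (hmem 0 (by decide)) (hmem 1 (by decide))))
          (inv_mem (hmem 3 (by decide)))
      simp only [Fin.reduceFinMk]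
      rw [h1]; exact h2
    · have h1 : c 3 = (c 0 * c 1 * c 2)⁻¹ := by
        apply eq_inv_of_mul_eq_one_right
        exact hprod
      have h2 : (c 0 * c 1 * c 2)⁻¹ ∈ closure (c '' {(3 : Fin 4)}ᶜ) :=
        inv_mem (mul_mem (mul_mem (hmem 0 (by decide)) (hmem 1 (by decide)))
          (hmem 2 (by decide)))
      simp only [Fin.reduceFinMk]
      rw [h1]; exact h2
  apply lemmaA P hp hp2 hPc hPi (c '' {j | j ≠ i₁ ∧ j ≠ i₂}) (by
    rintro w ⟨j, ⟨hj1, hj2⟩, rfl⟩
    have h1 := hs j
    rw [hrest j hj1 hj2] at h1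
    exact ⟨h1.cent, hcop j⟩) (c i₁)
  · rcases Int.units_eq_one_or (s i₁) with h4 | h4
    · left
      have h1 := hs i₁
      rw [h4] at h1
      exact ⟨h1.cent, hcop i₁⟩
    · right
      have h1 := hs i₁
      rw [h4] at h1
      exact h1.inv
  · rw [eq_top_iff, ← hgen, closure_le]
    rintro w ⟨j, rfl⟩
    have himg : c '' {i₂}ᶜ ⊆ closure (insert (c i₁) (c '' {j | j ≠ i₁ ∧ j ≠ i₂})) := by
      rintro w ⟨j, hj, rfl⟩
      have hj' : j ≠ i₂ := by simpa using hj
      by_cases hj1 : j = i₁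
      · rw [hj1]; exact subset_closure (Set.mem_insert _ _)
      · exact subset_closure (Set.mem_insert_of_mem _ ⟨j, ⟨hj1, hj'⟩, rfl⟩)
    by_cases hj2 : j = i₂
    · rw [hj2]
      exact (closure_le _).mpr himg (hothers i₂)
    · exact himg ⟨j, by simpa using hj2, rfl⟩

theorem upper {G : Type} [Group G] [Finite G] {p : ℕ} (hp : p.Prime)
    (hbig : 6 * Nat.factorial 24 < p) (hmod : Nat.factorial 30 ∣ p + 1)
    (hact : ActsOnGenus G (2 * p + 1)) : Nat.card G ≤ 16 * (p + 1) := by
  by_contra hcon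
  obtain ⟨h, r, a, b, c, hc1, hprod, hgen, heq⟩ := hact
  have hcon' := hcon
  push Not at hcon'
  have hkQ : (16 * (p + 1) : ℚ) < Nat.card G := by exact_mod_cast hcon'
  have hpQ : (0 : ℚ) < p := by exact_mod_cast hp.pos
  have heq' : 4 * (p : ℚ) = (Nat.card G : ℚ) *
      (2 * (h : ℚ) - 2 + ∑ i, (1 - 1 / (orderOf (c i) : ℚ))) := by
    rw [← heq]; push_cast; ring
  set S := ∑ i, (1 - 1 / (orderOf (c i) : ℚ)) with hS
  have hm2 : ∀ i, 2 ≤ orderOf (c i) := by
    intro i
    have h0 := orderOf_pos (c i)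
    have h1 : orderOf (c i) ≠ 1 := fun h => hc1 i (orderOf_eq_one_iff.mp h)
    omega
  have hSr : (r : ℚ) / 2 ≤ S := by
    have : ∑ i : Fin r, (1 / 2 : ℚ) ≤ S := by
      apply Finset.sum_le_sum
      intro i _
      have : 1 / (orderOf (c i) : ℚ) ≤ 1 / 2 := by
        apply one_div_le_one_div_of_le (by norm_num)
        exact_mod_cast hm2 i
      linarith
    simpa [div_eq_mul_inv] using this
  have hSr2 : S ≤ r := by
    have : S ≤ ∑ i : Fin r, (1 : ℚ) := by
      apply Finset.sum_le_sum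
      intro i _
      have : 0 ≤ 1 / (orderOf (c i) : ℚ) := by positivity
      linarith
    simpa using this
  have hA1 : 0 < 2 * (h : ℚ) - 2 + S := by
    by_contra hneg
    push Not at hneg
    have : (Nat.card G : ℚ) * (2 * (h : ℚ) - 2 + S) ≤ 0 :=
      mul_nonpos_of_nonneg_of_nonpos (by positivity) hneg
    linarith
  have hA2 : 2 * (h : ℚ) - 2 + S < 1 / 4 := by
    by_contra hge
    push Not at hge
    have : (Nat.card G : ℚ) * (1 / 4) ≤ 4 * p := by
      rw [heq']
      exact mul_le_mul_of_nonneg_left hge (by positivity)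
    linarith
  have hh : h = 0 := by
    rcases Nat.eq_zero_or_pos h with h0 | h0
    · exact h0
    · exfalso
      have h1 : (1 : ℚ) ≤ h := by exact_mod_cast h0
      rcases Nat.eq_zero_or_pos r with hr | hr
      · subst hr
        have hS0 : S = 0 := by rw [hS]; simp
        rw [hS0] at hA1 hA2
        have h2 : (2 : ℚ) * h < 9 / 4 := by linarith
        have h3 : 2 < (2 : ℚ) * h := by linarith
        have h4 : 1 < h := by
          have : (1 : ℚ) < h := by linarith
          exact_mod_cast this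
        have h5 : (2 : ℚ) ≤ h := by exact_mod_cast h4
        linarith
      · have h2 : (1 : ℚ) ≤ r := by exact_mod_cast hr
        linarith
  subst hh
  have hr3 : 3 ≤ r := by
    have : (2 : ℚ) < r := by
      have : (2 : ℚ) < S := by simpa using hA1
      linarith
    exact_mod_cast this
  have hr4 : r ≤ 4 := by
    have : (r : ℚ) < 5 := by
      have : S < 9 / 4 := by
        have h1 : (2 : ℚ) * (0 : ℕ) - 2 + S < 1 / 4 := hA2
        simp at h1
        linarith
      linarith
    have : r < 5 := by exact_mod_cast this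
    omega
  have hgen' : closure (Set.range c) = ⊤ := by
    have ha : Set.range a = ∅ := Set.range_eq_empty a
    have hb : Set.range b = ∅ := Set.range_eq_empty b
    rw [ha, hb] at hgen
    simpa using hgen
  have hprod' : (List.ofFn c).prod = 1 := by simpa using hprod
  apply hcon
  have hr : r = 3 ∨ r = 4 := by omega
  rcases hr with rfl | rfl
  · have hp3 : c 0 * c 1 * c 2 = 1 := by
      rw [← hprod']
      simp [List.ofFn_succ, mul_assoc]
    have htri : Tri (c 0) (c 1) (c 2) := by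
      refine ⟨hp3, ?_⟩
      rw [eq_top_iff, ← hgen', closure_le]
      have h0 : c 0 ∈ closure {c 0, c 1} := subset_closure (by simp)
      have h1 : c 1 ∈ closure {c 0, c 1} := subset_closure (by simp)
      have h2 : c 2 = (c 0 * c 1)⁻¹ := eq_inv_of_mul_eq_one_right hp3
      rintro w ⟨j, rfl⟩
      fin_cases j
      · exact h0
      · exact h1
      · show c 2 ∈ _
        rw [h2]
        exact inv_mem (mul_mem h0 h1)
    obtain ⟨x, y, z, ht, hxy, hyz, hsum, hne⟩ := htri.sort
    have hne' := hne ⟨fun h => hc1 0 (orderOf_eq_one_iff.mp h),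
      fun h => hc1 1 (orderOf_eq_one_iff.mp h), fun h => hc1 2 (orderOf_eq_one_iff.mp h)⟩
    apply triple_bound hp hbig hmod ht hne'.1 hxy hyz
    rw [hsum, heq', hS, Fin.sum_univ_three]
    push_cast
    ring
  · have hp4 : c 0 * c 1 * c 2 * c 3 = 1 := by
      rw [← hprod']
      simp [List.ofFn_succ, mul_assoc]
    apply quad_bound hp hbig hmod hp4 hgen' hc1
    rw [heq', hS, Fin.sum_univ_four]
    push_cast
    ring

end Pool.MP01ebcc
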